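import Pool.Agent.helper33.PG.Spec

/-! Row pg:NON (MP_37e5fa_nt): one of two neighbouring integers `W` is not zero -/

set_option autoImplicit false

namespace Pool.Agent.PG

open Polynomial Finset

theorem NON (hDET : DET_stmt) : NON_stmt := by
  intro r q k n a b hb ha h1 h2
  obtain ⟨c, hc, hdet⟩ := hDET q a b hb ha
  obtain ⟨x, hx⟩ : ∃ x : ℤ, x = -((k : ℤ) * 2 ^ n) := ⟨_, rfl⟩
  have h3 := congrArg (fun P => Polynomial.eval x P) hdet
  simp only [eval_sub, eval_mul, eval_C, eval_pow, eval_X, eval_one] at h3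
  unfold W at h1 h2
  rw [← hx] at h1 h2
  have h4 : (2 : ℤ) ^ r * (c * (x - 1) ^ (a + b + 1)) = 0 := by
    rw [← h3]
    linear_combination (B q (a + 1) (b - 1)).eval x * h1 - (B q a b).eval x * h2
  have hx1 : x - 1 ≠ 0 := by
    rw [hx]
    have : (0 : ℤ) ≤ (k : ℤ) * 2 ^ n := by positivity
    omega
  have h5 : (2 : ℤ) ^ r * (c * (x - 1) ^ (a + b + 1)) ≠ 0 :=
    mul_ne_zero (pow_ne_zero _ (by norm_num)) (mul_ne_zero hc (pow_ne_zero _ hx1))
  exact h5 h4

end Pool.Agent.PG
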